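import Mathlib
import Pool.Agent.TH773.PSet.Defs

/-!
# Functions, domination and the polarized relation in the forcing language

A name for a relation between the elements of `X` and the elements of `Y` is a map sending `x` and
`y` to the set of the conditions attached to the pair. Every relation between the elements of the
ground model sets `X` and `Y` which belongs to the extension has such a name.
-/

set_option autoImplicit false

namespace Pool.Agent.V11242.RF

open Pool.Agent.TH773.PSet

universe u

variable {P : Type u} [Preorder P]

/-- The relation `g` is a function from `X` to `Y`. -/
def IsFun {X Y : Type} (g : X → Y → Set P) : Set P :=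
  fand (fall fun x => fex fun y => meets (g x y))
    (fall fun x => fall fun y => fall fun y' => fall fun _ : y ≠ y' =>
      fnot (fand (meets (g x y)) (meets (g x y'))))

/-- The relation `g` does not relate two different elements of `X` to the same element of `Y`. -/
def IsInj {X Y : Type} (g : X → Y → Set P) : Set P :=
  fall fun x => fall fun x' => fall fun _ : x ≠ x' => fall fun y =>
    fnot (fand (meets (g x y)) (meets (g x' y)))

/-- For the functions `f` and `g` from `ω` to `ω`: `f n ≤ g n` for all but finitely many `n`. -/
def LeStar (f g : ℕ → ℕ → Set P) : Set P :=
  fex fun N : ℕ => fall fun n => fall fun _ : N ≤ n => fall fun a => fall fun b =>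
    fall fun _ : b < a => fnot (fand (meets (f n a)) (meets (g n b)))

variable (P) in
/-- There is a dominating family of functions from `ω` to `ω` which is indexed by `L`. -/
def HasDominating (L : Type) : Set P :=
  fex fun D : L → ℕ → ℕ → Set P => fand (fall fun l => IsFun (D l))
    (fall fun f : ℕ → ℕ → Set P => fimp (IsFun f) (fex fun l => LeStar f (D l)))

variable (P) in
/-- For a set `K` with a well-order all of whose proper initial segments are of smaller
cardinality than `K`: the dominating number is equal to the cardinality of `K`. There is a
dominating family indexed by `K`, but none indexed by a proper initial segment of `K`. -/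
def DominatingIs (K : Type) [LinearOrder K] : Set P :=
  fand (HasDominating P K) (fall fun a : K => fnot (HasDominating P (Set.Iio a)))

/-- The subset `A` of `K` is of the same cardinality as `K`: there is a one-to-one function from
`K` to `K` with all values in `A`. -/
def FullSize {K : Type} (A : K → Set P) : Set P :=
  fex fun g : K → K → Set P => fand (IsFun g) (fand (IsInj g)
    (fall fun x => fall fun y => fimp (meets (g x y)) (meets (A y))))

/-- The colouring `c` of `K × ω` (the set of the pairs of colour `1`) is constant on `A × B`. -/
def ConstantOn {K : Type} (c : K → ℕ → Set P) (A : K → Set P) (B : ℕ → Set P) : Set P :=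
  disj
    (fall fun k => fall fun n => fimp (fand (meets (A k)) (meets (B n))) (meets (c k n)))
    (fall fun k => fall fun n => fimp (fand (meets (A k)) (meets (B n))) (fnot (meets (c k n))))

variable (P) in
/-- The strong polarized relation for the cardinality of `K` and `ω`: for every colouring
`c : K × ω → 2` there are a set `A ⊆ K` of the cardinality of `K` and an infinite set `B ⊆ ω` such
that `c` is constant on `A × B`. -/
def Polarized (K : Type) : Set P :=
  fall fun c : K → ℕ → Set P => fex fun A : K → Set P => fex fun B : ℕ → Set P =>
    fand (FullSize A) (fand (Inf B) (ConstantOn c A B))

/-- The dominating number of the ground model. -/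
noncomputable def domNumber : Cardinal.{0} :=
  sInf {c | ∃ D : Set (ℕ → ℕ), Cardinal.mk D = c ∧
    ∀ f : ℕ → ℕ, ∃ d ∈ D, ∃ N, ∀ n, N ≤ n → f n ≤ d n}

end Pool.Agent.V11242.RF
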