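import Mathlib
import Pool.Agent.TH773.PSet.Prod
import Pool.Agent.V11242.RF.Defs

/-!
# Tools for random forcing
-/

set_option autoImplicit false
set_option linter.unusedSectionVars false

namespace Pool.Agent.V11242.RF

open Pool.Agent.TH773.PSet MeasureTheory Set Filter Topology

universe u v

section Gen

variable {P : Type u} [Preorder P]

theorem reg_isFun {X Y : Type} (g : X → Y → Set P) : Reg (IsFun g) :=
  reg_fand (reg_fall fun _ => reg_fex _)
    (reg_fall fun _ => reg_fall fun _ => reg_fall fun _ => reg_fall fun _ =>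
      reg_fnot (down_fand (reg_meets _).1 (reg_meets _).1))

theorem reg_isInj {X Y : Type} (g : X → Y → Set P) : Reg (IsInj g) :=
  reg_fall fun _ => reg_fall fun _ => reg_fall fun _ => reg_fall fun _ =>
    reg_fnot (down_fand (reg_meets _).1 (reg_meets _).1)

theorem reg_leStar (f g : ℕ → ℕ → Set P) : Reg (LeStar f g) := reg_fex _

end Gen

variable {Ω : Type u} [MeasurableSpace Ω] {μ : Measure Ω} [IsFiniteMeasure μ]

/-- A condition. -/
def mk (E : Set Ω) (hE : MeasurableSet E) (h : μ E ≠ 0) : Cond μ := ⟨E, hE, h⟩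

omit [IsFiniteMeasure μ] in
theorem mk_le {E : Set Ω} (hE : MeasurableSet E) (h : μ E ≠ 0) {p : Cond μ}
    (hp : ∀ x ∈ E, x ∈ p.1) : mk E hE h ≤ p := by
  rw [le_iff_AE, mem_AE_iff]
  exact ae_of_all _ fun x hx => hp x hx

omit [IsFiniteMeasure μ] in
theorem mk_AE {E F : Set Ω} (hE : MeasurableSet E) (h : μ E ≠ 0)
    (hp : ∀ x ∈ E, x ∈ F) : mk E hE h ∈ AE μ F := by
  rw [mem_AE_iff]
  exact ae_of_all _ fun x hx => hp x hx

omit [IsFiniteMeasure μ] in
theorem ae_of_forall {F : Set Ω} (hF : MeasurableSet F) (h : ∀ p : Cond μ, p ∈ AE μ F) :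
    ∀ᵐ x ∂μ, x ∈ F := by
  rw [ae_iff]
  by_contra hne
  have h1 := h (mk Fᶜ hF.compl hne)
  rw [mem_AE_iff] at h1
  refine hne (measure_eq_zero_iff_ae_notMem.2 (h1.mono fun x hx hx' => hx' (hx hx')))

omit [IsFiniteMeasure μ] in
theorem ae_of_forall_not {F : Set Ω} (hF : MeasurableSet F) (h : ∀ p : Cond μ, p ∉ AE μ F) :
    ∀ᵐ x ∂μ, x ∉ F := by
  rw [← measure_eq_zero_iff_ae_notMem]
  by_contra hne
  exact h (mk F hF hne) (mk_AE hF hne fun x hx => hx)

/-- The measurable set which represents the statement `meets N`. -/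
noncomputable def rep (N : Set (Cond μ)) : Set Ω := ⋃ j, (exists_meets N).choose j

theorem measurable_rep (N : Set (Cond μ)) : MeasurableSet (rep N) :=
  MeasurableSet.iUnion fun j => measurable_S (exists_meets N).choose_spec.1 j

theorem meets_rep (N : Set (Cond μ)) : meets N = AE μ (rep N) := (exists_meets N).choose_spec.2

theorem mem_meets {N : Set (Cond μ)} {p : Cond μ} :
    p ∈ meets N ↔ ∀ᵐ x ∂μ, x ∈ p.1 → x ∈ rep N := by
  rw [meets_rep, mem_AE_iff]

theorem mem_not_and {N M : Set (Cond μ)} {p : Cond μ} :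
    p ∈ fnot (fand (meets N) (meets M)) ↔ ∀ᵐ x ∂μ, x ∈ p.1 → ¬ (x ∈ rep N ∧ x ∈ rep M) := by
  rw [meets_rep, meets_rep, fand_AE, fnot_AE ((measurable_rep _).inter (measurable_rep _)),
    mem_AE_iff]
  rfl

theorem mem_isFun {X Y : Type} [Countable X] [Countable Y] {g : X → Y → Set (Cond μ)}
    {p : Cond μ} : p ∈ IsFun g ↔
      ∀ᵐ x ∂μ, x ∈ p.1 → ∀ a, ∃! b, x ∈ rep (g a b) := by
  unfold IsFun
  rw [mem_fand]
  have h1 : (p ∈ fall fun x => fex fun y => meets (g x y)) ↔
      ∀ᵐ x ∂μ, x ∈ p.1 → ∀ a, ∃ b, x ∈ rep (g a b) := by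
    have e : (fall fun x => fex fun y => meets (g x y)) =
        AE μ (⋂ a, ⋃ b, rep (g a b)) := by
      simp only [meets_rep]
      rw [← fall_AE]
      congr 1
      ext1 a
      exact fex_AE fun b => measurable_rep _
    rw [e, mem_AE_iff]
    simp
  have h2 : (p ∈ fall fun x => fall fun y => fall fun y' => fall fun _ : y ≠ y' =>
      fnot (fand (meets (g x y)) (meets (g x y')))) ↔
      ∀ᵐ x ∂μ, x ∈ p.1 → ∀ a b b', b ≠ b' → ¬ (x ∈ rep (g a b) ∧ x ∈ rep (g a b')) := by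
    simp only [mem_fall, mem_not_and]
    constructor
    · intro h
      have h3 := ae_all_iff.2 fun a => ae_all_iff.2 fun b => ae_all_iff.2 fun b' =>
        ae_all_iff.2 fun hb : b ≠ b' => h a b b' hb
      filter_upwards [h3] with x h4 h5 a b b' hb using h4 a b b' hb h5
    · intro h a b b' hb
      exact h.mono fun x h4 h5 => h4 h5 a b b' hb
  rw [h1, h2]
  constructor
  · rintro ⟨h3, h4⟩
    filter_upwards [h3, h4] with x h5 h6 h7 a
    obtain ⟨b, hb⟩ := h5 h7 a
    refine ⟨b, hb, fun b' hb' => ?_⟩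
    by_contra hne
    exact h6 h7 a b' b hne ⟨hb', hb⟩
  · intro h
    refine ⟨h.mono fun x h5 h6 a => (h5 h6 a).exists, h.mono fun x h5 h6 a b b' hne hh => ?_⟩
    exact hne ((h5 h6 a).unique hh.1 hh.2)

theorem mem_leStar {f g : ℕ → ℕ → Set (Cond μ)} {p : Cond μ} :
    p ∈ LeStar f g ↔ ∀ᵐ x ∂μ, x ∈ p.1 → ∃ N, ∀ n, N ≤ n → ∀ a b, x ∈ rep (f n a) →
      x ∈ rep (g n b) → a ≤ b := by
  unfold LeStar
  have e : ∀ N : ℕ, (fall fun n : ℕ => fall fun _ : N ≤ n => fall fun a => fall fun b =>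
      fall fun _ : b < a => fnot (fand (meets (f n a)) (meets (g n b)))) =
      AE μ (⋂ n : ℕ, ⋂ (_ : N ≤ n), ⋂ a : ℕ, ⋂ b : ℕ, ⋂ (_ : b < a),
        (rep (f n a) ∩ rep (g n b))ᶜ) := by
    intro N
    simp only [← fall_AE]
    refine congrArg fall (funext fun n => congrArg fall (funext fun _ => congrArg fall
      (funext fun a => congrArg fall (funext fun b => congrArg fall (funext fun _ => ?_)))))
    rw [meets_rep, meets_rep, fand_AE, fnot_AE ((measurable_rep _).inter (measurable_rep _))]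
  simp only [e]
  rw [fex_AE, mem_AE_iff]
  · refine eventually_congr (Eventually.of_forall fun x => ?_)
    refine imp_congr_right fun _ => ?_
    simp only [mem_iUnion, mem_iInter, mem_compl_iff, mem_inter_iff, not_and]
    refine exists_congr fun N => forall_congr' fun n => forall_congr' fun _ =>
      forall_congr' fun a => forall_congr' fun b => ?_
    constructor
    · intro h h1 h2
      by_contra h3
      exact h (not_le.1 h3) h1 h2
    · intro h h1 h2 h3
      exact absurd (h h2 h3) (not_le.2 h1)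
  · intro N
    exact MeasurableSet.iInter fun n => MeasurableSet.iInter fun _ => MeasurableSet.iInter fun a =>
      MeasurableSet.iInter fun b => MeasurableSet.iInter fun _ =>
        ((measurable_rep _).inter (measurable_rep _)).compl

theorem mem_inf {B : ℕ → Set (Cond μ)} {p : Cond μ} :
    p ∈ Inf B ↔ ∀ᵐ x ∂μ, x ∈ p.1 → ∀ N, ∃ n, N ≤ n ∧ x ∈ rep (B n) := by
  have h : Inf B = Inf (hat μ fun n => rep (B n)) := by
    unfold Inf
    have : ∀ n, meets (hat μ (fun n => rep (B n)) n) = meets (B n) := by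
      intro n
      rw [meets_hat (fun n => measurable_rep (B n)), meets_rep]
    simp only [this]
  rw [h, inf_hat (fun n => measurable_rep _), mem_AE_iff]
  rfl

variable (μ) in
/-- The canonical name of the function `h`. -/
def chk (h : ℕ → ℕ) : ℕ → ℕ → Set (Cond μ) := fun n m => {_p | h n = m}

theorem meets_chk (h : ℕ → ℕ) (n m : ℕ) : meets (chk μ h n m) = {_p | h n = m} := by
  ext p
  constructor
  · intro hp
    obtain ⟨r, -, s, hs, -⟩ := hp p le_rfl
    exact hs
  · intro hp q hq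
    exact ⟨q, le_rfl, q, hp, le_rfl⟩

theorem rep_chk (h : ℕ → ℕ) : ∀ᵐ x ∂μ, ∀ n m, x ∈ rep (chk μ h n m) ↔ h n = m := by
  rw [ae_all_iff]
  intro n
  rw [ae_all_iff]
  intro m
  have h1 := meets_chk (μ := μ) h n m
  rw [meets_rep] at h1
  by_cases hnm : h n = m
  · refine (ae_of_forall (μ := μ) (measurable_rep (chk μ h n m)) fun p => ?_).mono
      fun x hx => ⟨fun _ => hnm, fun _ => hx⟩
    rw [h1]
    exact hnm
  · refine (ae_of_forall_not (μ := μ) (measurable_rep (chk μ h n m)) fun p => ?_).mono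
      fun x hx => ⟨fun h' => absurd h' hx, fun h' => absurd h' hnm⟩
    rw [h1]
    exact hnm

theorem isFun_chk (h : ℕ → ℕ) (p : Cond μ) : p ∈ IsFun (chk μ h) := by
  rw [mem_isFun]
  filter_upwards [rep_chk (μ := μ) h] with x hx _ a
  refine ⟨h a, (hx a _).2 rfl, fun b hb => ((hx a b).1 hb).symm⟩

/-- Borel–Cantelli bound for a name of a function. -/
theorem exists_ae_bound {f : ℕ → ℕ → Set (Cond μ)} {p : Cond μ} (hf : p ∈ IsFun f) :
    ∃ h : ℕ → ℕ, ∀ᵐ x ∂μ, x ∈ p.1 → ∃ N, ∀ n, N ≤ n → ∀ m, x ∈ rep (f n m) → m ≤ h n := by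
  rw [mem_isFun] at hf
  let G : ℕ → ℕ → Set Ω := fun n M => p.1 ∩ ⋃ m : ℕ, ⋃ (_ : M < m), rep (f n m)
  have hG : ∀ n M, MeasurableSet (G n M) := fun n M => p.2.1.inter
    (MeasurableSet.iUnion fun m => MeasurableSet.iUnion fun _ => measurable_rep _)
  have h1 : ∀ n, μ (⋂ M, G n M) = 0 := by
    intro n
    refine measure_eq_zero_iff_ae_notMem.2 ?_
    filter_upwards [hf] with x hx hx'
    rw [mem_iInter] at hx'
    obtain ⟨m, hm, hm'⟩ := hx (hx' 0).1 n
    have h2 := (hx' m).2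
    simp only [mem_iUnion] at h2
    obtain ⟨m', h3, h4⟩ := h2
    have := hm' m' h4
    omega
  have h2 : ∀ n, ∃ M, μ (G n M) ≤ (2 : ENNReal)⁻¹ ^ n := by
    intro n
    have h3 : Tendsto (μ ∘ G n) atTop (𝓝 0) := by
      rw [← h1 n]
      refine tendsto_measure_iInter_atTop (fun M => (hG n M).nullMeasurableSet) ?_
        ⟨0, measure_ne_top _ _⟩
      intro M M' h x hx
      refine ⟨hx.1, ?_⟩
      have := hx.2
      simp only [mem_iUnion] at this ⊢
      obtain ⟨m, hm, hm'⟩ := this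
      exact ⟨m, lt_of_le_of_lt h hm, hm'⟩
    obtain ⟨M, hM⟩ := eventually_atTop.1 (h3.eventually (ge_mem_nhds (two_pos n)))
    exact ⟨M, hM M le_rfl⟩
  choose h hh using h2
  refine ⟨h, ?_⟩
  have hs : ∑' n, μ (G n (h n)) ≠ ⊤ :=
    ne_top_of_le_ne_top tsum_two (ENNReal.tsum_le_tsum hh)
  filter_upwards [ae_eventually_notMem hs] with x hx hxp
  obtain ⟨N, hN⟩ := eventually_atTop.1 hx
  refine ⟨N, fun n hn m hm => ?_⟩
  by_contra hlt
  exact hN n hn ⟨hxp, mem_iUnion.2 ⟨m, mem_iUnion.2 ⟨not_le.1 hlt, hm⟩⟩⟩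

/-- Every name of a function is dominated by a function of the ground model. -/
theorem exists_leStar {f : ℕ → ℕ → Set (Cond μ)} {p : Cond μ} (hf : p ∈ IsFun f) :
    ∃ h : ℕ → ℕ, ∀ g : ℕ → ℕ, (∃ N, ∀ n, N ≤ n → h n ≤ g n) → p ∈ LeStar f (chk μ g) := by
  obtain ⟨h, hh⟩ := exists_ae_bound hf
  refine ⟨h, fun g ⟨N, hN⟩ => ?_⟩
  rw [mem_leStar]
  filter_upwards [hh, rep_chk (μ := μ) g] with x hx hg hxp
  obtain ⟨N', hN'⟩ := hx hxp
  refine ⟨max N N', fun n hn a b ha hb => ?_⟩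
  rw [hg] at hb
  rw [← hb]
  exact (hN' n ((le_max_right _ _).trans hn) a ha).trans (hN n ((le_max_left _ _).trans hn))

/-- The measure algebra satisfies the countable chain condition. -/
theorem countable_of_incomp {ι : Type*} (r : ι → Cond μ)
    (h : ∀ i j, i ≠ j → ¬ ∃ s, s ≤ r i ∧ s ≤ r j) : Countable ι := by
  have h1 : Pairwise (Function.onFun (AEDisjoint μ) fun i => (r i).1) := by
    intro i j hij
    show μ ((r i).1 ∩ (r j).1) = 0
    by_contra hne
    exact h i j hij ⟨mk ((r i).1 ∩ (r j).1) ((r i).2.1.inter (r j).2.1) hne,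
      mk_le _ _ fun x hx => hx.1, mk_le _ _ fun x hx => hx.2⟩
  have h2 := Measure.countable_meas_pos_of_disjoint_iUnion₀ (μ := μ)
    (fun i => ((r i).2.1).nullMeasurableSet) h1
  have h3 : {i | 0 < μ (r i).1} = univ := by
    ext i
    simp [pos_iff_ne_zero, (r i).2.2]
  rw [h3] at h2
  exact countable_univ_iff.1 h2

end Pool.Agent.V11242.RF
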