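import Mathlib
import Pool.Agent.V11242.RF.Basic

/-!
# The polarized relation fails after adding random reals
-/

set_option autoImplicit false
set_option linter.unusedSectionVars false

namespace Pool.Agent.V11242.RF

open Pool.Agent.TH773.PSet MeasureTheory Set Filter Topology

universe u v

variable {I : Type}

theorem coin_singleton (v : Bool) : coin {v} = (2 : ENNReal)⁻¹ := by
  unfold coin
  cases v <;> simp [Measure.smul_apply, Measure.add_apply]

theorem dep_coord' {T : Set (I × ℕ)} {t : I × ℕ} (ht : t ∈ T) (v : Bool) :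
    Dep T {x : I × ℕ → Bool | x t = v} := by
  cases v
  · have h := (dep_coord ht).compl
    have e : {x : I × ℕ → Bool | x t = true}ᶜ = {x : I × ℕ → Bool | x t = false} := by
      ext x
      simp
    rwa [e] at h
  · exact dep_coord ht

theorem measure_coords (i : I) (v : Bool) (S : Finset ℕ) :
    coinProduct I {x | ∀ k ∈ S, x (i, k) = v} = (2 : ENNReal)⁻¹ ^ S.card := by
  classical
  let s : Finset (I × ℕ) := S.image fun j => (i, j)
  have hs : {x : I × ℕ → Bool | ∀ k ∈ S, x (i, k) = v} = Set.pi s fun _ => {v} := by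
    ext x
    simp [s, Set.mem_pi]
  have hcard : s.card = S.card := by
    rw [Finset.card_image_of_injective]
    intro a b h
    exact congrArg Prod.snd h
  rw [hs, coinProduct, Measure.infinitePi_pi _ fun _ _ => measurableSet_singleton v,
    Finset.prod_const, coin_singleton, hcard]

/-- If the random infinite set `b` does not depend on the random real with index `i`, then the
random real with index `i` is not constant on `b`. -/
theorem ae_not_const {b : ℕ → Set (I × ℕ → Bool)} {T : Set (I × ℕ)} (hb : ∀ n, Dep T (b n))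
    (hinf : ∀ᵐ x ∂(coinProduct I), ∀ N, ∃ n, N ≤ n ∧ x ∈ b n) (i : I)
    (hi : ∀ t ∈ T, t.1 ≠ i) (v : Bool) :
    ∀ᵐ x ∂(coinProduct I), ¬ ∀ n, x ∈ b n → x (i, n) = v := by
  classical
  have hle : ∀ N : ℕ, coinProduct I {x | ∀ n, x ∈ b n → x (i, n) = v} ≤
      2 * (2 : ENNReal)⁻¹ ^ N := by
    intro N
    obtain ⟨M, -, hM⟩ := exists_long hb hinf 0 N (two_pos N)
    let J := Finset.Ico 0 M
    let Q : Finset ℕ → Set (I × ℕ → Bool) := fun S => {x | (J.filter fun k => x ∈ b k) = S}
    let R : Finset ℕ → Set (I × ℕ → Bool) := fun S => {x | ∀ k ∈ S, x (i, k) = v}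
    have hQd : ∀ S, Dep T (Q S) := fun S => dep_filter hb J S
    have hRd : ∀ S, Dep {t : I × ℕ | t.1 = i} (R S) := by
      intro S
      have : R S = ⋂ k : ℕ, ⋂ (_ : k ∈ S), {x : I × ℕ → Bool | x (i, k) = v} := by
        ext x
        simp [R]
      rw [this]
      exact Dep.iInter fun k => Dep.iInter fun hk =>
        dep_coord' (T := {t : I × ℕ | t.1 = i}) (t := (i, k)) (by simp) v
    have hdisj : Disjoint T {t : I × ℕ | t.1 = i} :=
      Set.disjoint_left.2 fun t h1 h2 => hi t h1 h2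
    have hcov : {x | ∀ n, x ∈ b n → x (i, n) = v} ⊆ {x | cnt b x 0 M < N} ∪
        ⋃ S ∈ J.powerset.filter (fun S => N ≤ S.card), Q S ∩ R S := by
      intro x hx
      by_cases h : cnt b x 0 M < N
      · exact Or.inl h
      · have h' : N ≤ (J.filter fun k => x ∈ b k).card := by
          have h2 := not_lt.1 h
          unfold cnt at h2
          exact h2
        refine Or.inr (mem_iUnion₂.2 ⟨J.filter fun k => x ∈ b k, ?_, rfl, ?_⟩)
        · exact Finset.mem_filter.2 ⟨Finset.mem_powerset.2 (Finset.filter_subset _ _), h'⟩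
        · intro k hk
          exact hx k (Finset.mem_filter.1 hk).2
    have hsum : ∑ S ∈ J.powerset.filter (fun S => N ≤ S.card), coinProduct I (Q S ∩ R S) ≤
        (2 : ENNReal)⁻¹ ^ N := by
      have h1 : ∀ S ∈ J.powerset.filter (fun S => N ≤ S.card),
          coinProduct I (Q S ∩ R S) ≤ coinProduct I (Q S) * (2 : ENNReal)⁻¹ ^ N := by
        intro S hS
        rw [dep_indep hdisj (hQd S) (hRd S)]
        refine mul_le_mul_right ?_ _
        show coinProduct I {x | ∀ k ∈ S, x (i, k) = v} ≤ _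
        rw [measure_coords]
        exact pow_le_pow_right_of_le_one' (ENNReal.inv_le_one.2 (by norm_num))
          (Finset.mem_filter.1 hS).2
      refine (Finset.sum_le_sum h1).trans ?_
      rw [← Finset.sum_mul]
      have h2 : ∑ S ∈ J.powerset.filter (fun S => N ≤ S.card), coinProduct I (Q S) ≤ 1 := by
        rw [← measure_biUnion_finset ?_ fun S _ => (hQd S).meas]
        · exact prob_le_one
        · intro S _ S' _ hne
          refine Set.disjoint_left.2 fun x h3 h4 => hne ?_
          rw [← h3, ← h4]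
      calc _ ≤ 1 * (2 : ENNReal)⁻¹ ^ N := mul_le_mul_left h2 _
        _ = _ := one_mul _
    calc coinProduct I {x | ∀ n, x ∈ b n → x (i, n) = v} ≤ _ := measure_mono hcov
      _ ≤ coinProduct I {x | cnt b x 0 M < N} +
          coinProduct I (⋃ S ∈ J.powerset.filter (fun S => N ≤ S.card), Q S ∩ R S) :=
        measure_union_le _ _
      _ ≤ (2 : ENNReal)⁻¹ ^ N + (2 : ENNReal)⁻¹ ^ N :=
        add_le_add hM ((measure_biUnion_finset_le _ _).trans hsum)
      _ = 2 * (2 : ENNReal)⁻¹ ^ N := (two_mul _).symm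
  have hz : coinProduct I {x | ∀ n, x ∈ b n → x (i, n) = v} = 0 := by
    have h2 := ENNReal.tendsto_pow_atTop_nhds_zero_of_lt_one
      (r := (2 : ENNReal)⁻¹) (ENNReal.inv_lt_one.2 (by norm_num))
    have h3 : Tendsto (fun n : ℕ => 2 * (2 : ENNReal)⁻¹ ^ n) atTop (𝓝 (2 * 0)) :=
      ENNReal.Tendsto.const_mul h2 (Or.inr (by simp))
    rw [mul_zero] at h3
    exact le_antisymm (ge_of_tendsto' h3 hle) bot_le
  exact measure_eq_zero_iff_ae_notMem.1 hz

/-- Let `A` be forced to be of the same size as the uncountable set `K`. Then for every countable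
subset `C` of `K` some stronger condition forces an element outside of `C` to be in `A`. -/
theorem exists_mem_outside {Ω : Type u} [MeasurableSpace Ω] {μ : Measure Ω} [IsFiniteMeasure μ]
    {K : Type} [Uncountable K] {A : K → Set (Cond μ)} {q : Cond μ} (hA : q ∈ FullSize A)
    {C : Set K} (hC : C.Countable) : ∃ k, k ∉ C ∧ ∃ r ≤ q, r ∈ meets (A k) := by
  classical
  obtain ⟨r, hr, g, hg1, hg2, hg3⟩ := mem_fex.1 hA q le_rfl
  by_contra hcon
  push Not at hcon
  have h1 : ∀ x : K, ∃ s ≤ r, ∃ y, s ∈ meets (g x y) := by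
    intro x
    obtain ⟨s, hs, y, hy⟩ := mem_fex.1 (hg1.1 x) r le_rfl
    exact ⟨s, hs, y, hy⟩
  choose s hs y hy using h1
  have hyC : ∀ x, y x ∈ C := by
    intro x
    by_contra hne
    have h2 := (reg_fall fun x => reg_fall fun y => reg_fimp (reg_meets (g x y)).1
      (ψ := meets (A y))).1 _ hg3 _ (hs x)
    have h3 := (mem_fimp_reg (reg_meets _).1 (reg_meets _)).1 (h2 x (y x)) (s x) le_rfl (hy x)
    exact hcon (y x) hne (s x) ((hs x).trans hr) h3
  have h2 : ∀ c ∈ C, {x | y x = c}.Countable := by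
    intro c _
    have h3 : Countable {x | y x = c} := by
      refine countable_of_incomp (fun x : {x | y x = c} => s x.1) ?_
      rintro ⟨i, hi⟩ ⟨j, hj⟩ hij ⟨t, ht1, ht2⟩
      have hij' : i ≠ j := fun h => hij (Subtype.ext h)
      have h4 := hg2 i j hij' c t (ht1.trans (hs i))
      refine h4 ⟨?_, ?_⟩
      · have := hy i
        rw [show y i = c from hi] at this
        exact (reg_meets _).1 _ this _ ht1
      · have := hy j
        rw [show y j = c from hj] at this
        exact (reg_meets _).1 _ this _ ht2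
    exact h3
  have h3 : (univ : Set K).Countable := by
    have h4 : (univ : Set K) ⊆ ⋃ c ∈ C, {x | y x = c} := fun x _ =>
      mem_iUnion₂.2 ⟨y x, hyC x, rfl⟩
    exact (hC.biUnion h2).mono h4
  exact not_countable (α := K) (countable_univ_iff.1 h3)

/-- The colouring given by the random reals. -/
def col {K : Type} (e : K → I) (k : K) (n : ℕ) : Set (Random I) :=
  AE (coinProduct I) {x | x (e k, n) = true}

theorem measurable_coord (t : I × ℕ) (v : Bool) :
    MeasurableSet {x : I × ℕ → Bool | x t = v} := (dep_coord' (mem_singleton t) v).meas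

theorem not_polarized {K : Type} [Uncountable K] (e : K ↪ I) (p : Random I) :
    p ∈ fnot (Polarized (Random I) K) := by
  intro q _ hq
  obtain ⟨q1, hq1, A, hA⟩ := mem_fex.1 (hq (col e)) q le_rfl
  obtain ⟨q2, hq2, B, hA, hB, hc⟩ := mem_fex.1 hA q1 le_rfl
  have key : ∀ r ≤ q2, ∀ v : Bool,
      (∀ k n, r ∈ fimp (fand (meets (A k)) (meets (B n)))
        (AE (coinProduct I) {x : I × ℕ → Bool | x (e k, n) = v})) → False := by
    intro r hr v h
    obtain ⟨T0, hT0, hT0'⟩ := exists_countable r.2.1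
    choose T1 hT1 hT1' using fun n => exists_countable (measurable_rep (B n))
    let T : Set (I × ℕ) := T0 ∪ ⋃ n, T1 n
    have hT : T.Countable := hT0.union (countable_iUnion hT1)
    have hC : {k | e k ∈ Prod.fst '' T}.Countable :=
      (hT.image _).preimage_of_injOn e.injective.injOn
    have hA' : r ∈ FullSize A := (reg_fex _).1 _ hA _ hr
    obtain ⟨k, hk, s, hs, hsA⟩ := exists_mem_outside hA' hC
    have hinf : ∀ᵐ x ∂(coinProduct I), ∀ N, ∃ n, N ≤ n ∧ x ∈ rep (B n) ∪ r.1ᶜ := by
      have h1 := mem_inf.1 ((reg_inf B).1 _ hB _ hr)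
      filter_upwards [h1] with x hx N
      by_cases hxr : x ∈ r.1
      · obtain ⟨n, hn, hn'⟩ := hx hxr N
        exact ⟨n, hn, Or.inl hn'⟩
      · exact ⟨N, le_rfl, Or.inr hxr⟩
    have hdep : ∀ n, Dep T (rep (B n) ∪ r.1ᶜ) := by
      intro n
      have e1 : rep (B n) ∪ r.1ᶜ = ((rep (B n))ᶜ ∩ r.1)ᶜ := by
        rw [compl_inter, compl_compl]
      rw [e1]
      refine (Dep.inter (Dep.compl ?_) ?_).compl
      · exact (hT1' n).mono (subset_union_of_subset_right (subset_iUnion T1 n) T0)
      · exact hT0'.mono subset_union_left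
    have h2 := ae_not_const hdep hinf (e k)
      (fun t ht h' => hk ⟨t, ht, h'⟩) v
    have h3 : ∀ᵐ x ∂(coinProduct I), x ∈ s.1 → ∀ n, x ∈ rep (B n) → x (e k, n) = v := by
      have h4 : ∀ n, ∀ᵐ x ∂(coinProduct I), x ∈ s.1 → x ∈ rep (B n) → x (e k, n) = v := by
        intro n
        have h5 := (reg_fimp (down_fand (reg_meets _).1 (reg_meets _).1)).1 _ (h k n) _ hs
        rw [meets_rep, meets_rep, fand_AE, fimp_AE ((measurable_rep _).inter (measurable_rep _))
          (measurable_coord _ _), mem_AE_iff] at h5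
        have h6 := mem_meets.1 hsA
        filter_upwards [h5, h6] with x h7 h8 h9 h10
        rcases h7 h9 with h11 | h11
        · exact absurd ⟨h8 h9, h10⟩ h11
        · exact h11
      filter_upwards [ae_all_iff.2 h4] with x h5 h6 n h7 using h5 n h6 h7
    have h4 : ∀ᵐ x ∂(coinProduct I), x ∈ s.1 → x ∈ r.1 := mem_AE_iff.1 (le_iff_AE.1 hs)
    refine s.2.2 (measure_eq_zero_iff_ae_notMem.2 ?_)
    filter_upwards [h2, h3, h4] with x h5 h6 h7 h8
    refine h5 fun n hn => ?_
    rcases hn with hn | hn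
    · exact h6 h8 n hn
    · exact absurd (h7 h8) hn
  obtain ⟨r, hr, h | h⟩ := mem_disj.1 hc q2 le_rfl
  · refine key r hr true fun k n => ?_
    have h1 : r ∈ fimp (fand (meets (A k)) (meets (B n))) (meets (col e k n)) := h k n
    rw [show meets (col e k n) = AE (coinProduct I) {x | x (e k, n) = true} from
      meets_AE (measurable_coord _ _)] at h1
    exact h1
  · refine key r hr false fun k n => ?_
    have h1 : r ∈ fimp (fand (meets (A k)) (meets (B n))) (fnot (meets (col e k n))) := h k n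
    rw [show meets (col e k n) = AE (coinProduct I) {x | x (e k, n) = true} from
      meets_AE (measurable_coord _ _), fnot_AE (measurable_coord _ _)] at h1
    have e1 : {x : I × ℕ → Bool | x (e k, n) = true}ᶜ = {x | x (e k, n) = false} := by
      ext x
      simp
    rw [e1] at h1
    exact h1

/-! ### The dominating number -/

section Dom

variable {Ω : Type u} [MeasurableSpace Ω] {μ : Measure Ω} [IsFiniteMeasure μ]

theorem hasDominating {L : Type} (D : L → ℕ → ℕ)
    (hD : ∀ f : ℕ → ℕ, ∃ l, ∃ N, ∀ n, N ≤ n → f n ≤ D l n) (p : Cond μ) :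
    p ∈ HasDominating (Cond μ) L := by
  refine mem_fex_of (fun l => chk μ (D l)) fun q _ => ⟨fun l => isFun_chk _ _, fun f => ?_⟩
  refine mem_fimp.2 fun r _ hf => ⟨r, le_rfl, ?_⟩
  obtain ⟨h, hh⟩ := exists_leStar hf
  obtain ⟨l, hl⟩ := hD h
  exact mem_fex_of l fun s hs => (reg_leStar _ _).1 _ (hh _ hl) _ hs

theorem not_hasDominating {L : Type}
    (hL : ∀ D : L → ℕ → ℕ, ∃ g : ℕ → ℕ, ∀ l, ¬ ∃ N, ∀ n, N ≤ n → g n ≤ D l n) (p : Cond μ) :
    p ∈ fnot (HasDominating (Cond μ) L) := by
  intro q _ hq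
  obtain ⟨q1, hq1, D, hD1, hD2⟩ := mem_fex.1 hq q le_rfl
  choose h hh using fun l => exists_ae_bound (hD1 l)
  obtain ⟨g, hg⟩ := hL h
  obtain ⟨q2, hq2, h1⟩ := mem_fimp.1 (hD2 (chk μ g)) q1 le_rfl (isFun_chk g q1)
  obtain ⟨r, hr, l, hl⟩ := mem_fex.1 h1 q2 le_rfl
  have hD3 := mem_isFun.1 ((reg_isFun _).1 _ (hD1 l) _ (hr.trans hq2))
  have h2 : ∀ᵐ x ∂μ, x ∈ r.1 → x ∈ q1.1 := mem_AE_iff.1 (le_iff_AE.1 (hr.trans hq2))
  refine r.2.2 (measure_eq_zero_iff_ae_notMem.2 ?_)
  filter_upwards [hh l, mem_leStar.1 hl, rep_chk (μ := μ) g, hD3, h2] with x h3 h4 h5 h6 h7 h8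
  obtain ⟨N, hN⟩ := h3 (h7 h8)
  obtain ⟨N', hN'⟩ := h4 h8
  refine hg l ⟨max N N', fun n hn => ?_⟩
  obtain ⟨b, hb, -⟩ := h6 h8 n
  exact (hN' n ((le_max_right _ _).trans hn) (g n) b ((h5 n _).2 rfl) hb).trans
    (hN n ((le_max_left _ _).trans hn) b hb)

end Dom

end Pool.Agent.V11242.RF
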